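import Mathlib
import Pool.Agent.TH539.HLDigits

set_option autoImplicit false

/-!
# The Hall-Lang conjecture for sparse integral points, uniformly in the base

All elliptic curves `y ^ 2 = x ^ 3 + A x + D`, `A`, `D` integers, `H = max |A| |D|`.

1. Let `b ≥ 2` be any integer and let `q x` and `q y` be combinations of the same `r` powers of `b`
   with integral coefficients of absolute value at most `B`.  Then
   `max |x| |y| ≤ (5 (r B q) ^ 3 H) ^ (5 * 12 ^ r)`.
2. In particular this holds (with `B = b`, `q = b ^ k - 1`) if `r` is the number of places at which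
   the base `b` digits of `|x|` and `b ^ k |x|`, and of `|y|` and `b ^ k |y|`, differ; so `x` and `y`
   may be long words composed of few periodic blocks whose periods divide `k`.

Proof: the affine dichotomy of `Pool.Agent.H458.Sp` (Dirichlet's box principle) produces a
polynomial curve through a large sparse point, and there is none on an elliptic curve.
-/

namespace Pool.Agent.Results.MP_a1107e_nt.SparsePoints

/-- `u` and `v` are combinations of the same `r` powers of `b` with integral coefficients of absolute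
value at most `B` -/
def Sparse (b r B : ℕ) (u v : ℤ) : Prop :=
  ∃ (e : Fin r → ℕ) (c c' : Fin r → ℤ), (∀ j, |c j| ≤ B) ∧ (∀ j, |c' j| ≤ B) ∧
    u = ∑ j, c j * (b : ℤ) ^ (e j) ∧ v = ∑ j, c' j * (b : ℤ) ^ (e j)

/-- the number of places at which the base `b` digits of `|x|` and of `b ^ k * |x|` differ -/
noncomputable def changes (b k : ℕ) (x : ℤ) : ℕ :=
  Set.ncard {i : ℕ | x.natAbs / b ^ i % b ≠ b ^ k * x.natAbs / b ^ i % b}

theorem result :
    (∀ b r B q : ℕ, 2 ≤ b → 1 ≤ q → ∀ A D x y : ℤ, 4 * A ^ 3 + 27 * D ^ 2 ≠ 0 →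
      y ^ 2 = x ^ 3 + A * x + D → Sparse b r B (q * x) (q * y) →
      max |x| |y| ≤ (5 * (r * B * q) ^ 3 * max |A| |D|) ^ (5 * 12 ^ r)) ∧
    ∀ b k r : ℕ, 2 ≤ b → 1 ≤ k → ∀ A D x y : ℤ, 4 * A ^ 3 + 27 * D ^ 2 ≠ 0 →
      y ^ 2 = x ^ 3 + A * x + D → changes b k x + changes b k y = r →
      max |x| |y| ≤ (5 * (r * b ^ (k + 1)) ^ 3 * max |A| |D|) ^ (5 * 12 ^ r) := by
  constructor
  · intro b r B q hb hq A D x y hD hE hS
    have h := Pool.Agent.TH539.HLSparse.elliptic_bound b r B q hb hq A D x y hD hE hS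
    push_cast at h
    exact h
  · intro b k r hb hk A D x y hD hE hr
    have hbk : 2 ≤ b ^ k := le_trans hb (Nat.le_self_pow (by omega) b)
    have hS := Pool.Agent.TH539.HLSparse.sparsePair_changes b k hb x y
    have hr' : Pool.Agent.TH539.HLSparse.digitChanges b k x +
        Pool.Agent.TH539.HLSparse.digitChanges b k y = r := hr
    rw [hr'] at hS
    have h := Pool.Agent.TH539.HLSparse.elliptic_bound b r b (b ^ k - 1) hb (by omega) A D x y
      hD hE hS
    refine h.trans ?_
    have h0 : (0 : ℤ) ≤ max |A| |D| := le_trans (abs_nonneg A) (le_max_left _ _)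
    have h1 : ((r * b * (b ^ k - 1) : ℕ) : ℤ) ≤ (r : ℤ) * (b : ℤ) ^ (k + 1) := by
      have h2 : r * b * (b ^ k - 1) ≤ r * b ^ (k + 1) := by
        calc r * b * (b ^ k - 1) ≤ r * b * b ^ k := Nat.mul_le_mul_left _ (Nat.sub_le _ _)
          _ = r * b ^ (k + 1) := by ring
      exact_mod_cast h2
    have h3 : (0 : ℤ) ≤ ((r * b * (b ^ k - 1) : ℕ) : ℤ) := Int.natCast_nonneg _
    refine pow_le_pow_left₀ (by positivity) ?_ _
    refine mul_le_mul_of_nonneg_right ?_ h0
    exact mul_le_mul_of_nonneg_left (pow_le_pow_left₀ h3 h1 3) (by norm_num)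

end Pool.Agent.Results.MP_a1107e_nt.SparsePoints
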